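import Pool.Agent.Helper45.FG.St2

/-! Project FG, module EXC: an automorphism of `K` extends to a character of the fusion ring. -/

set_option autoImplicit false

namespace Pool.Agent.Helper29.FG

open Pool.Agent.Helper45.FG
open scoped BigOperators

private lemma dim_one {I : Type} [Fintype I] (R : FusionRing I) (d : I → ℝ) (hd : IsDim R d) :
    d R.one = 1 := by
  have h := hd.mul R.one R.one
  rw [Finset.sum_eq_single R.one] at h
  · rw [R.one_mul_self, Nat.cast_one] at h
    exact mul_right_cancel₀ (hd.pos R.one).ne' h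
  · intro k _ hk
    rw [R.one_mul_ne _ _ hk, Nat.cast_zero, zero_mul]
  · intro h0
    exact absurd (Finset.mem_univ _) h0

private lemma dim_int {I : Type} [Fintype I] (R : FusionRing I) (d : I → ℝ) (hd : IsDim R d)
    (i : I) : IsIntegral ℤ (d i) := by
  have hne : Submodule.span ℤ (Set.range d) ≠ ⊥ := by
    intro h
    have h1 : d R.one ∈ Submodule.span ℤ (Set.range d) := Submodule.subset_span ⟨_, rfl⟩
    rw [h, Submodule.mem_bot] at h1
    exact (hd.pos R.one).ne' h1
  refine isIntegral_of_smul_mem_submodule (M := ℝ) (Submodule.span ℤ (Set.range d)) hne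
    (Submodule.fg_span (Set.finite_range d)) (d i) ?_
  intro n hn
  induction hn using Submodule.span_induction with
  | mem x hx =>
    obtain ⟨j, rfl⟩ := hx
    rw [smul_eq_mul, hd.mul i j]
    refine Submodule.sum_mem _ fun k _ => ?_
    rw [← nsmul_eq_mul]
    exact Submodule.smul_of_tower_mem _ _ (Submodule.subset_span ⟨k, rfl⟩)
  | zero => rw [smul_zero]; exact Submodule.zero_mem _
  | add x y _ _ hx hy => rw [smul_add]; exact Submodule.add_mem _ hx hy
  | smul a x _ hx =>
    rw [smul_comm]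
    exact Submodule.smul_mem _ _ hx

/-- EXC. -/
theorem hEXC : StEXC := by
  intro K hK I _ R d hd t
  have hint := dim_int R d hd
  obtain ⟨S, hS⟩ : ∃ S : Set ℝ, S = (K : Set ℝ) ∪ Set.range d := ⟨_, rfl⟩
  have hSi : ∀ s ∈ S, IsIntegral ℚ s ∧ ((minpoly ℚ s).map (algebraMap ℚ ℂ)).Splits := by
    intro s hs
    refine ⟨?_, IsAlgClosed.splits _⟩
    rw [hS] at hs
    rcases hs with hs | ⟨j, rfl⟩
    · have h1 : IsIntegral ℚ (⟨s, hs⟩ : K) := IsIntegral.of_finite ℚ _
      exact h1.map K.val
    · exact (hint j).tower_top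
  have hKS : K ≤ IntermediateField.adjoin ℚ S := fun s hs =>
    IntermediateField.subset_adjoin ℚ S (by rw [hS]; exact Or.inl hs)
  let f : K →ₐ[ℚ] ℂ := ((IsScalarTower.toAlgHom ℚ ℝ ℂ).comp K.val).comp t.toAlgHom
  obtain ⟨φ, hφ⟩ := IntermediateField.exists_algHom_adjoin_of_splits hSi f hKS
  have hmem : ∀ j, d j ∈ IntermediateField.adjoin ℚ S := fun j =>
    IntermediateField.subset_adjoin ℚ S (by rw [hS]; exact Or.inr ⟨j, rfl⟩)
  refine ⟨fun j => φ ⟨d j, hmem j⟩, ?_, ?_, ?_⟩
  · have h1 : (⟨d R.one, hmem R.one⟩ : IntermediateField.adjoin ℚ S) = 1 :=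
      Subtype.ext (dim_one R d hd)
    change φ _ = 1
    rw [h1, map_one]
  · intro i j
    have h1 : (⟨d i, hmem i⟩ * ⟨d j, hmem j⟩ : IntermediateField.adjoin ℚ S) =
        ∑ k, (R.N i j k : IntermediateField.adjoin ℚ S) * ⟨d k, hmem k⟩ := by
      apply Subtype.ext
      push_cast
      exact hd.mul i j
    change φ _ * φ _ = ∑ k, (R.N i j k : ℂ) * φ _
    rw [← map_mul, h1, map_sum]
    refine Finset.sum_congr rfl (fun k _ => ?_)
    rw [map_mul, map_natCast]
  · intro i x hx
    have h3 := DFunLike.congr_fun hφ x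
    have h4 : (⟨d i, hmem i⟩ : IntermediateField.adjoin ℚ S) =
        IntermediateField.inclusion hKS x := Subtype.ext hx.symm
    change φ _ = _
    rw [h4]
    exact h3

end Pool.Agent.Helper29.FG
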