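import Pool.Agent.Helper45.FG.St

/-! Project FG, module PFM: the largest real eigenvalue is the dimension. -/

set_option autoImplicit false

namespace Pool.Agent.Helper29.FG

open Pool.Agent.Helper45.FG
open scoped BigOperators

private lemma mat_nonneg {I : Type} [Fintype I] (R : FusionRing I) (n : I → ℕ) (j k : I) :
    0 ≤ mulMat R n j k := by
  unfold mulMat
  exact Finset.sum_nonneg fun i _ => by positivity

private lemma mat_dim {I : Type} [Fintype I] (R : FusionRing I) (d : I → ℝ) (hd : IsDim R d)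
    (n : I → ℕ) (j : I) :
    ∑ k, mulMat R n j k * d k = (∑ i, (n i : ℝ) * d i) * d j := by
  unfold mulMat
  simp only [Finset.sum_mul]
  rw [Finset.sum_comm]
  refine Finset.sum_congr rfl fun i _ => ?_
  rw [mul_assoc, hd.mul i j, Finset.mul_sum]
  exact Finset.sum_congr rfl fun k _ => by ring

private lemma eig_le {I : Type} [Fintype I] (R : FusionRing I) (d : I → ℝ) (hd : IsDim R d)
    (n : I → ℕ) (z : ℝ) (hz : IsEig (mulMat R n) z) : z ≤ ∑ i, (n i : ℝ) * d i := by
  obtain ⟨v, hv, hvz⟩ := hz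
  have : Nonempty I := ⟨R.one⟩
  obtain ⟨j₀, hj₀⟩ := Finite.exists_max (fun j => |v j| / d j)
  obtain ⟨c, hc⟩ : ∃ c, c = |v j₀| / d j₀ := ⟨_, rfl⟩
  have hle : ∀ k, |v k| ≤ c * d k := by
    intro k
    rw [← div_le_iff₀ (hd.pos k), hc]
    exact hj₀ k
  have hv0 : |v j₀| = c * d j₀ := by
    rw [hc, div_mul_cancel₀ _ (hd.pos j₀).ne']
  have hcpos : 0 < c := by
    by_contra hcn
    apply hv
    funext k
    have h1 := hle k
    have h2 : c * d k ≤ 0 := mul_nonpos_of_nonpos_of_nonneg (not_lt.1 hcn) (hd.pos k).le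
    have h3 : |v k| = 0 := le_antisymm (h1.trans h2) (abs_nonneg _)
    simpa using h3
  have hvpos : 0 < |v j₀| := by
    rw [hv0]
    exact mul_pos hcpos (hd.pos j₀)
  have hkey : |z| * |v j₀| ≤ (∑ i, (n i : ℝ) * d i) * |v j₀| := by
    calc |z| * |v j₀| = |∑ k, mulMat R n j₀ k * v k| := by rw [← abs_mul, hvz j₀]
      _ ≤ ∑ k, |mulMat R n j₀ k * v k| := Finset.abs_sum_le_sum_abs _ _
      _ ≤ ∑ k, mulMat R n j₀ k * d k * c := by
          refine Finset.sum_le_sum fun k _ => ?_
          rw [abs_mul, abs_of_nonneg (mat_nonneg R n j₀ k), mul_assoc]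
          refine mul_le_mul_of_nonneg_left ?_ (mat_nonneg R n j₀ k)
          rw [mul_comm]
          exact hle k
      _ = (∑ i, (n i : ℝ) * d i) * |v j₀| := by
          rw [← Finset.sum_mul, mat_dim R d hd n j₀, hv0]
          ring
  exact (le_abs_self z).trans (le_of_mul_le_mul_right hkey hvpos)

/-- PFM. -/
theorem hPFM (_hFIN : StFIN) : StPFM := by
  intro I _ R d hd n β
  have heig : IsEig (mulMat R n) (∑ i, (n i : ℝ) * d i) := by
    refine ⟨d, ?_, fun j => mat_dim R d hd n j⟩
    intro h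
    have h1 := congrFun h R.one
    have h2 := hd.pos R.one
    rw [h1] at h2
    exact lt_irrefl _ h2
  constructor
  · rintro ⟨hE, hmax⟩
    exact le_antisymm (eig_le R d hd n β hE) (hmax _ heig)
  · rintro rfl
    exact ⟨heig, fun z hz => eig_le R d hd n z hz⟩

end Pool.Agent.Helper29.FG
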