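import Pool.Agent.Helper45.FG.St4

/-! Project FG, module PIH: pigeonhole in the fixed field of a subgroup. -/

set_option autoImplicit false

namespace Pool.Agent.Helper29.FG

open Pool.Agent.Helper45.FG

open scoped BigOperators

/-- the place given by an automorphism -/
private noncomputable def LL {K : IntermediateField ℚ ℝ} (t : K ≃ₐ[ℚ] K) : K →ₗ[ℚ] ℝ :=
  K.val.toLinearMap ∘ₗ t.toLinearMap

private theorem LL_apply {K : IntermediateField ℚ ℝ} (t : K ≃ₐ[ℚ] K) (x : K) :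
    LL t x = ((t x : K) : ℝ) := rfl

private theorem basis_L (K : IntermediateField ℚ ℝ) [FiniteDimensional ℚ K]
    (L : IntermediateField ℚ K) (m : ℕ) (hm : Module.finrank ℚ L = m) :
    ∃ e : Fin m → K, (∀ j, IsIntegral ℤ (e j)) ∧ (∀ j, e j ∈ L) ∧
      ∀ c : Fin m → ℚ, ∑ j, c j • e j = 0 → ∀ j, c j = 0 := by
  subst hm
  obtain ⟨b, -⟩ : ∃ b, b = Module.finBasis ℚ L := ⟨_, rfl⟩
  have h1 : ∀ j, ∃ y : ℤ, y ≠ 0 ∧ IsIntegral ℤ (y • b j) := by
    intro j
    have h2 : IsAlgebraic ℤ (b j) :=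
      (IsFractionRing.isAlgebraic_iff ℤ ℚ L).2 (Algebra.IsAlgebraic.isAlgebraic (b j))
    exact h2.exists_integral_multiple
  choose y hy hint using h1
  refine ⟨fun j => ((y j • b j : L) : K), ?_, ?_, ?_⟩
  · intro j
    exact (hint j).map (L.val.restrictScalars ℤ)
  · intro j
    exact (y j • b j : L).2
  · intro c hc j
    have h3 : ∑ j, (c j * (y j : ℚ)) • b j = 0 := by
      apply Subtype.ext
      rw [ZeroMemClass.coe_zero, ← hc]
      push_cast
      refine Finset.sum_congr rfl fun i _ => ?_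
      rw [mul_smul]
      congr 1
      exact Int.cast_smul_eq_zsmul ℚ (y i) ((b i : L) : K)
    have h4 := (Fintype.linearIndependent_iff.1 b.linearIndependent) _ h3 j
    rcases mul_eq_zero.1 h4 with h5 | h5
    · exact h5
    · exact absurd (by exact_mod_cast h5) (hy j)

private theorem floor_PG (u v : ℝ) (hu : 0 ≤ u) (hv : 0 ≤ v) (h : ⌊u⌋₊ = ⌊v⌋₊) :
    |u - v| < 1 := by
  have h1 := Nat.floor_le hu
  have h2 := Nat.lt_floor_add_one u
  have h3 := Nat.floor_le hv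
  have h4 := Nat.lt_floor_add_one v
  rw [h] at h1 h2
  rw [abs_lt]
  constructor <;> linarith

private theorem finrank_fix (K : IntermediateField ℚ ℝ) [FiniteDimensional ℚ K] [IsGalois ℚ K]
    (H : Subgroup (K ≃ₐ[ℚ] K)) :
    Module.finrank ℚ (IntermediateField.fixedField H) = H.index := by
  rw [IntermediateField.finrank_eq_fixingSubgroup_index,
    IntermediateField.fixingSubgroup_fixedField]

theorem hPIH : StPIH := by
  intro K hfin hgal H hH
  classical
  have h2k : 2 ≤ H.index := by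
    have h0 : H.index ≠ 0 := Subgroup.index_ne_zero_of_finite
    have h1 : H.index ≠ 1 := mt Subgroup.index_eq_one.mp hH
    omega
  obtain ⟨k, hk⟩ : ∃ k, k = H.index := ⟨_, rfl⟩
  rw [← hk] at h2k ⊢
  obtain ⟨e, hint, hmem, hind⟩ := basis_L K (IntermediateField.fixedField H) k
    (by rw [finrank_fix K H, hk])
  have hfix : ∀ t ∈ H, ∀ j, t (e j) = e j := by
    intro t ht j
    have h1 := (IntermediateField.mem_fixedField_iff H (e j)).1 (hmem j)
    exact h1 t ht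
  set E : ℝ := 1 + ∑ t : K ≃ₐ[ℚ] K, ∑ j, |LL t (e j)| with hE
  have hE1 : 1 ≤ E := by
    rw [hE]
    have : 0 ≤ ∑ t : K ≃ₐ[ℚ] K, ∑ j, |LL t (e j)| :=
      Finset.sum_nonneg fun t _ => Finset.sum_nonneg fun j _ => abs_nonneg _
    linarith
  have hEt : ∀ t : K ≃ₐ[ℚ] K, ∑ j, |LL t (e j)| ≤ E := by
    intro t
    have h1 : ∑ j, |LL t (e j)| ≤ ∑ t : K ≃ₐ[ℚ] K, ∑ j, |LL t (e j)| :=
      Finset.single_le_sum (f := fun t : K ≃ₐ[ℚ] K => ∑ j, |LL t (e j)|)
        (fun t _ => Finset.sum_nonneg fun j _ => abs_nonneg _) (Finset.mem_univ t)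
    rw [hE]
    linarith
  have hE0 : 0 < E := by linarith
  have hEm : 1 ≤ E ^ k := one_le_pow₀ hE1
  refine ⟨4 * E ^ k + 2 * E, by linarith, ?_⟩
  intro W hW
  have hW2 : 2 * E ≤ W := by
    have : 0 ≤ 4 * E ^ k := by positivity
    linarith
  have hW0 : 0 < W := by linarith
  set A : ℕ := ⌊W / E⌋₊ with hA
  have hA2 : 2 ≤ A := by
    rw [hA]
    apply Nat.le_floor
    rw [le_div_iff₀ hE0]
    exact_mod_cast hW2
  have hAle : (A : ℝ) * E ≤ W := by
    have h1 : (A : ℝ) ≤ W / E := Nat.floor_le (by positivity)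
    rwa [le_div_iff₀ hE0] at h1
  have hAlt : W < ((A : ℝ) + 1) * E := by
    have h1 : W / E < (A : ℝ) + 1 := Nat.lt_floor_add_one _
    rwa [div_lt_iff₀ hE0] at h1
  -- bounds for combinations
  have hcomb : ∀ (t : K ≃ₐ[ℚ] K) (c : Fin k → ℝ), (∀ j, |c j| ≤ A) →
      |∑ j, c j * LL t (e j)| ≤ W := by
    intro t c hc
    calc |∑ j, c j * LL t (e j)| ≤ ∑ j, |c j * LL t (e j)| := Finset.abs_sum_le_sum_abs _ _
      _ ≤ ∑ j, (A : ℝ) * |LL t (e j)| := by
          refine Finset.sum_le_sum fun j _ => ?_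
          rw [abs_mul]
          exact mul_le_mul_of_nonneg_right (hc j) (abs_nonneg _)
      _ = A * ∑ j, |LL t (e j)| := by rw [Finset.mul_sum]
      _ ≤ A * E := mul_le_mul_of_nonneg_left (hEt t) (Nat.cast_nonneg _)
      _ ≤ W := hAle
  set x : (Fin k → Fin (A + 1)) → K := fun a => ∑ j, (a j : ℕ) • e j with hx
  have hLx : ∀ (t : K ≃ₐ[ℚ] K) (a : Fin k → Fin (A + 1)),
      LL t (x a) = ∑ j, ((a j : ℕ) : ℝ) * LL t (e j) := by
    intro t a
    rw [hx]
    show LL t (∑ j, (a j : ℕ) • e j) = _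
    rw [map_sum]
    refine Finset.sum_congr rfl fun j _ => ?_
    rw [map_nsmul, nsmul_eq_mul]
  have hLW : ∀ (t : K ≃ₐ[ℚ] K) (a : Fin k → Fin (A + 1)), |LL t (x a)| ≤ W := by
    intro t a
    rw [hLx]
    refine hcomb t _ fun j => ?_
    rw [abs_of_nonneg (Nat.cast_nonneg _)]
    have h1 := (a j).2
    exact_mod_cast (by omega : ((a j : ℕ)) ≤ A)
  -- the number of boxes
  set P : ℕ := (A + 1) ^ k with hP
  have hP9 : 9 ≤ P := by
    calc 9 = 3 ^ 2 := by norm_num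
      _ ≤ (A + 1) ^ 2 := Nat.pow_le_pow_left (by omega) 2
      _ ≤ (A + 1) ^ k := Nat.pow_le_pow_right (by omega) h2k
  obtain ⟨M, hM⟩ : ∃ M, M + 2 = P := ⟨P - 2, by omega⟩
  have hM1 : M + 1 < P := by omega
  have hM2 : P ≤ 2 * M := by omega
  have hMR : (0 : ℝ) < M := by
    have : 0 < M := by omega
    exact_mod_cast this
  set bx : (Fin k → Fin (A + 1)) → ℝ :=
    fun a => (LL 1 (x a) + W) * M / (2 * W) with hbx
  have hb0 : ∀ a, 0 ≤ bx a := by
    intro a
    have h1 := (abs_le.1 (hLW 1 a)).1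
    have h2 : 0 ≤ LL 1 (x a) + W := by linarith
    show 0 ≤ (LL 1 (x a) + W) * M / (2 * W)
    positivity
  have hb1 : ∀ a, bx a ≤ M := by
    intro a
    have h1 := (abs_le.1 (hLW 1 a)).2
    show (LL 1 (x a) + W) * M / (2 * W) ≤ M
    rw [div_le_iff₀ (by linarith)]
    nlinarith
  have hdiff : ∀ a a', ⌊bx a⌋₊ = ⌊bx a'⌋₊ →
      |LL 1 (x a - x a')| * M ≤ 2 * W := by
    intro a a' h
    have h1 := floor_PG _ _ (hb0 a) (hb0 a') h
    have h2 : bx a - bx a' = LL 1 (x a - x a') * M / (2 * W) := by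
      show (LL 1 (x a) + W) * M / (2 * W) - (LL 1 (x a') + W) * M / (2 * W) = _
      rw [map_sub]
      ring
    rw [h2, abs_div, abs_mul, abs_of_pos hMR, abs_of_pos (by linarith : 0 < 2 * W),
      div_lt_one (by linarith)] at h1
    exact h1.le
  obtain ⟨a, _, a', _, hne, hf⟩ := Finset.exists_ne_map_eq_of_card_lt_of_maps_to
    (s := (Finset.univ : Finset (Fin k → Fin (A + 1))))
    (t := Finset.range (M + 1))
    (f := fun a => ⌊bx a⌋₊) (by
      rw [Finset.card_range, Finset.card_univ, Fintype.card_fun,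
        Fintype.card_fin, Fintype.card_fin]
      exact hM1) (by
      intro a _
      rw [Finset.mem_coe, Finset.mem_range]
      have h2 : ⌊bx a⌋₊ ≤ M := Nat.floor_le_of_le (hb1 a)
      show ⌊bx a⌋₊ < M + 1
      omega)
  have hf1 : ⌊bx a⌋₊ = ⌊bx a'⌋₊ := hf
  -- the final inequality
  have hfinal : ∀ v : ℝ, |v| * M ≤ 2 * W → |v| * W ^ (k - 1) ≤ 4 * E ^ k + 2 * E := by
    intro v hv
    have h3 : W ^ k ≤ 2 * (M : ℝ) * E ^ k := by
      have h4 : W ^ k ≤ (((A : ℝ) + 1) * E) ^ k := pow_le_pow_left₀ hW0.le hAlt.le k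
      rw [mul_pow] at h4
      have h5 : ((A : ℝ) + 1) ^ k ≤ 2 * (M : ℝ) := by exact_mod_cast hM2
      exact h4.trans (mul_le_mul_of_nonneg_right h5 (by positivity))
    have h8 : W * W ^ (k - 1) = W ^ k := by
      rw [← pow_succ']
      congr 1
      omega
    have h9 : |v| * W ^ (k - 1) * (M : ℝ) ≤ 4 * E ^ k * (M : ℝ) := by
      calc |v| * W ^ (k - 1) * (M : ℝ) = |v| * (M : ℝ) * W ^ (k - 1) := by ring
        _ ≤ 2 * W * W ^ (k - 1) := mul_le_mul_of_nonneg_right hv (by positivity)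
        _ = 2 * W ^ k := by rw [mul_assoc, h8]
        _ ≤ 4 * E ^ k * (M : ℝ) := by linarith
    have h10 : |v| * W ^ (k - 1) ≤ 4 * E ^ k := le_of_mul_le_mul_right h9 hMR
    linarith
  have hLw : ∀ t : K ≃ₐ[ℚ] K, LL t (x a - x a') =
      ∑ j, (((a j : ℕ) : ℝ) - ((a' j : ℕ) : ℝ)) * LL t (e j) := by
    intro t
    rw [map_sub, hLx, hLx, ← Finset.sum_sub_distrib]
    exact Finset.sum_congr rfl fun j _ => by ring
  refine ⟨x a - x a', ?_, ?_, ?_, ?_, ?_⟩
  · have h1 : ∀ a : Fin k → Fin (A + 1), IsIntegral ℤ (x a) := by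
      intro a
      refine IsIntegral.sum _ fun j _ => ?_
      rw [nsmul_eq_mul]
      exact IsIntegral.mul (isIntegral_natCast _) (hint j)
    exact (h1 a).sub (h1 a')
  · intro h0
    apply hne
    funext j
    have h1 : ∑ j, (((a j : ℕ) : ℚ) - ((a' j : ℕ) : ℚ)) • e j = 0 := by
      rw [← h0, hx]
      show _ = ∑ j, (a j : ℕ) • e j - ∑ j, (a' j : ℕ) • e j
      rw [← Finset.sum_sub_distrib]
      refine Finset.sum_congr rfl fun i _ => ?_
      rw [sub_smul, Nat.cast_smul_eq_nsmul, Nat.cast_smul_eq_nsmul]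
    have h2 := hind _ h1 j
    have h3 : ((a j : ℕ) : ℚ) = ((a' j : ℕ) : ℚ) := by linarith
    exact Fin.ext (by exact_mod_cast h3)
  · intro t ht
    have h1 : ∀ a : Fin k → Fin (A + 1), t (x a) = x a := by
      intro a
      show t (∑ j, (a j : ℕ) • e j) = ∑ j, (a j : ℕ) • e j
      rw [map_sum]
      refine Finset.sum_congr rfl fun j _ => ?_
      rw [map_nsmul, hfix t ht j]
    rw [map_sub, h1, h1]
  · exact hfinal _ (hdiff a a' hf1)
  · intro t
    rw [← LL_apply, hLw]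
    refine hcomb t _ fun j => ?_
    have h1 := (a j).2
    have h2 := (a' j).2
    have h3 : ((a j : ℕ) : ℝ) ≤ A := by exact_mod_cast (by omega : ((a j : ℕ)) ≤ A)
    have h4 : ((a' j : ℕ) : ℝ) ≤ A := by exact_mod_cast (by omega : ((a' j : ℕ)) ≤ A)
    have h5 : (0 : ℝ) ≤ ((a j : ℕ) : ℝ) := Nat.cast_nonneg _
    have h6 : (0 : ℝ) ≤ ((a' j : ℕ) : ℝ) := Nat.cast_nonneg _
    rw [abs_le]
    constructor <;> linarith

end Pool.Agent.Helper29.FG
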